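import Pool.Agent.H75.RW.Targets

/-!
# Row BLK: the letters which survive are the blocks (helper63)
-/

set_option autoImplicit false

open List Pool.Agent.H68.TG

namespace Pool.Agent.H63.RW

open Pool.Agent.H75.RW

theorem emb_false (y : ℕ) : emb (replicate y false) = replicate y 0 := by
  induction y with
  | zero => rfl
  | succ y ih => rw [replicate_succ, replicate_succ, emb, ih]

theorem dd_succ (y : ℕ) : dd (y + 1) = 1 :: 2 :: dd y := by
  unfold dd
  rw [replicate_succ, flatten_cons]
  rfl

theorem emb_true (y : ℕ) : emb (replicate y true) = dd y := by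
  induction y with
  | zero => rfl
  | succ y ih => rw [replicate_succ, emb, ih, dd_succ]

theorem img_rep (c : Fin 3) : ∃ q : Bool × ℕ, img c = replicate q.2 q.1 := by
  fin_cases c
  · exact ⟨(true, 1), rfl⟩
  · exact ⟨(false, 1), rfl⟩
  · exact ⟨(false, 3), rfl⟩

theorem prodb_cons (a b : ℕ) (l : List (ℕ × ℕ)) :
    prodb ((a, b) :: l) = replicate a 0 ++ dd b ++ prodb l := flatMap_cons

theorem pf_BLK (hXOH : T_XOH) : T_BLK := by
  intro T i x
  induction x with
  | nil =>
    intro σ
    refine ⟨[], ?_, ?_⟩
    · have h : W [] = [] := rfl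
      rw [h, mo_nil]
      rfl
    · simp [SS]
  | cons c x ih =>
    intro σ
    obtain ⟨l, h1, h2⟩ := ih (ms T (img c) σ)
    obtain ⟨q, hq⟩ := img_rep c
    have h3 : mo T i (img c) σ = replicate (xo T i q σ).2 (xo T i q σ).1 := by
      rw [hq]
      exact hXOH T i q σ
    rw [W_cons, mo_append, emb_app, h1, SS, ← h2]
    rcases Nat.eq_zero_or_pos (xo T i q σ).2 with h0 | h0
    · have h4 : mo T i (img c) σ = [] := by rw [h3, h0, replicate_zero]
      refine ⟨l, ?_, ?_⟩
      · rw [h4]
        rfl
      · unfold sv
        rw [if_pos h4, zero_add]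
    · have h4 : mo T i (img c) σ ≠ [] := by
        rw [h3]
        intro h
        rw [replicate_eq_nil_iff] at h
        omega
      cases hb : (xo T i q σ).1
      · refine ⟨((xo T i q σ).2, 0) :: l, ?_, ?_⟩
        · rw [prodb_cons, h3, hb, emb_false]
          simp [dd]
        · unfold sv
          rw [if_neg h4, length_cons]
          push_cast
          ring
      · refine ⟨(0, (xo T i q σ).2) :: l, ?_, ?_⟩
        · rw [prodb_cons, h3, hb, emb_true]
          simp
        · unfold sv
          rw [if_neg h4, length_cons]
          push_cast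
          ring

end Pool.Agent.H63.RW
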